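import Pool.Agent.U243.DB.Stm

/-!
# Package DIFF: the `L¹` norm of differences of a scaled kernel
-/

set_option autoImplicit false

open MeasureTheory Set Function
open scoped ENNReal NNReal ContDiff

namespace Pool.Agent.U261.DB

open Pool.Agent.U243.DB

section

variable {F : Type} [NormedAddCommGroup F]

/-- scaling commutes with differences -/
theorem diff_scale (c : ℂ) (s : ℝ) (h : ℂ) (k : ℕ) : ∀ f : ℂ → ℂ,
    (fwdDiff h)^[k] (fun z => c * f (s • z)) = fun z => c * ((fwdDiff (s • h))^[k] f) (s • z) := by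
  induction k with
  | zero => intro f; rfl
  | succ k ih =>
    intro f
    rw [iterate_succ_apply, iterate_succ_apply, ← ih (fwdDiff (s • h) f)]
    congr 1
    funext z
    simp only [fwdDiff, smul_add]
    ring

/-- continuity of the differences -/
theorem diff_cont (h : ℂ) (k : ℕ) : ∀ f : ℂ → F, Continuous f → Continuous ((fwdDiff h)^[k] f) := by
  induction k with
  | zero => intro f hf; exact hf
  | succ k ih =>
    intro f hf
    rw [iterate_succ_apply]
    refine ih _ ?_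
    unfold fwdDiff
    fun_prop

/-- the trivial bound -/
theorem diff_triv (h : ℂ) (k : ℕ) : ∀ f : ℂ → F, Continuous f →
    ∫⁻ z, ‖((fwdDiff h)^[k] f) z‖ₑ ≤ 2 ^ k * ∫⁻ z, ‖f z‖ₑ := by
  induction k with
  | zero => intro f _; simp
  | succ k ih =>
    intro f hf
    rw [iterate_succ_apply]
    have hc : Continuous (fwdDiff h f) := by unfold fwdDiff; fun_prop
    refine (ih _ hc).trans ?_
    have h1 : ∫⁻ z, ‖fwdDiff h f z‖ₑ ≤ 2 * ∫⁻ z, ‖f z‖ₑ := by
      calc ∫⁻ z, ‖fwdDiff h f z‖ₑ ≤ ∫⁻ z, (‖f (z + h)‖ₑ + ‖f z‖ₑ) := by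
            refine lintegral_mono fun z => ?_
            simp only [fwdDiff]
            exact enorm_sub_le
        _ = (∫⁻ z, ‖f (z + h)‖ₑ) + ∫⁻ z, ‖f z‖ₑ := by
            rw [lintegral_add_right]
            exact hf.enorm.measurable
        _ = 2 * ∫⁻ z, ‖f z‖ₑ := by
            rw [lintegral_add_right_eq_self (fun z => ‖f z‖ₑ) h]
            ring
    calc 2 ^ k * ∫⁻ z, ‖fwdDiff h f z‖ₑ ≤ 2 ^ k * (2 * ∫⁻ z, ‖f z‖ₑ) := by gcongr
      _ = 2 ^ (k + 1) * ∫⁻ z, ‖f z‖ₑ := by rw [pow_succ, mul_assoc]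

/-- the support of the differences -/
theorem diff_supp (h : ℂ) (hh : ‖h‖ ≤ 1) (k : ℕ) : ∀ (f : ℂ → F) (R : ℝ), (∀ z, R < ‖z‖ → f z = 0) →
    ∀ z, R + k < ‖z‖ → ((fwdDiff h)^[k] f) z = 0 := by
  induction k with
  | zero => intro f R hf z hz; exact hf z (by simpa using hz)
  | succ k ih =>
    intro f R hf z hz
    rw [iterate_succ_apply]
    refine ih (fwdDiff h f) (R + 1) ?_ z (by push_cast at hz; linarith)
    intro w hw
    have h1 : ‖w‖ - ‖h‖ ≤ ‖w + h‖ := by
      have := norm_sub_le (w + h) h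
      simp only [add_sub_cancel_right] at this
      linarith
    simp only [fwdDiff]
    rw [hf (w + h) (by linarith), hf w (by linarith), sub_zero]

end

/-- the derivative commutes with differences -/
theorem diff_fderiv {F : Type} [NormedAddCommGroup F] [NormedSpace ℝ F] (h : ℂ) (k : ℕ) :
    ∀ f : ℂ → F, ContDiff ℝ ∞ f →
    ContDiff ℝ ∞ ((fwdDiff h)^[k] f) ∧ fderiv ℝ ((fwdDiff h)^[k] f) = (fwdDiff h)^[k] (fderiv ℝ f) := by
  induction k with
  | zero => intro f hf; exact ⟨hf, rfl⟩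
  | succ k ih =>
    intro f hf
    have hshift : ContDiff ℝ ∞ (fun z => f (z + h)) := hf.comp (contDiff_id.add contDiff_const)
    have hc : ContDiff ℝ ∞ (fwdDiff h f) := hshift.sub hf
    have hd : fderiv ℝ (fwdDiff h f) = fwdDiff h (fderiv ℝ f) := by
      funext z
      have e1 : DifferentiableAt ℝ (fun z => f (z + h)) z :=
        (hshift.differentiable (by simp)).differentiableAt
      have e2 : DifferentiableAt ℝ f z := (hf.differentiable (by simp)).differentiableAt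
      have : fwdDiff h f = fun z => f (z + h) - f z := rfl
      rw [this, fderiv_fun_sub e1 e2, fderiv_comp_add_right]
      rfl
    rw [iterate_succ_apply, iterate_succ_apply, ← hd]
    exact ih _ hc

/-- the bound by the derivative of order `k` -/
theorem diff_deriv (h : ℂ) (k : ℕ) : ∀ (F : Type) [NormedAddCommGroup F] [NormedSpace ℝ F]
    (f : ℂ → F) (M : ℝ), ContDiff ℝ ∞ f → (∀ z, ‖iteratedFDeriv ℝ k f z‖ ≤ M) →
    ∀ z, ‖((fwdDiff h)^[k] f) z‖ ≤ ‖h‖ ^ k * M := by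
  induction k with
  | zero =>
    intro F _ _ f M hf hM z
    simpa using hM z
  | succ k ih =>
    intro F _ _ f M hf hM z
    have hf' : ContDiff ℝ ∞ (fderiv ℝ f) := hf.fderiv_right (by simp)
    have h1 := ih (ℂ →L[ℝ] F) (fderiv ℝ f) M hf' (fun z => by
      rw [norm_iteratedFDeriv_fderiv]; exact hM z)
    obtain ⟨hg, hd⟩ := diff_fderiv h k f hf
    rw [iterate_succ_apply']
    have h2 := Convex.norm_image_sub_le_of_norm_fderiv_le (𝕜 := ℝ) (f := (fwdDiff h)^[k] f)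
      (s := univ) (x := z) (y := z + h) (C := ‖h‖ ^ k * M)
      (fun x _ => (hg.differentiable (by simp)).differentiableAt)
      (fun x _ => by rw [hd]; exact h1 x) convex_univ (mem_univ _) (mem_univ _)
    have h3 : fwdDiff h ((fwdDiff h)^[k] f) z = (fwdDiff h)^[k] f (z + h) - (fwdDiff h)^[k] f z := rfl
    rw [h3]
    refine h2.trans (le_of_eq ?_)
    rw [add_sub_cancel_left]
    ring

/-- the case `s = 1` -/
theorem diff_one (ψ : ℂ → ℂ) (k : ℕ) (hψ : IsKer ψ) : ∃ B : ℝ, 0 ≤ B ∧ ∀ h : ℂ,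
    ∫⁻ z, ‖((fwdDiff h)^[k] ψ) z‖ₑ ≤ ENNReal.ofReal (B * min 1 (‖h‖ ^ k)) := by
  obtain ⟨hs, hc⟩ := hψ
  obtain ⟨M, hM⟩ := (hs.continuous_iteratedFDeriv (m := k) (by exact_mod_cast le_top)).bounded_above_of_compact_support
    (hc.iteratedFDeriv k)
  obtain ⟨R, hR⟩ := hc.isCompact.isBounded.subset_closedBall 0
  have hR' : ∀ z, R < ‖z‖ → ψ z = 0 := by
    intro z hz
    by_contra hne
    have := hR (subset_tsupport ψ hne)
    simp only [Metric.mem_closedBall, dist_zero_right] at this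
    linarith
  have hI : Integrable ψ := hs.continuous.integrable_of_hasCompactSupport hc
  have hM0 : 0 ≤ M := (norm_nonneg _).trans (hM 0)
  have hI' : ∫⁻ z, ‖ψ z‖ₑ ≠ ⊤ := hI.hasFiniteIntegral.ne
  set A : ℝ := (∫⁻ z, ‖ψ z‖ₑ).toReal with hA
  have hV : volume (Metric.closedBall (0 : ℂ) (R + k)) ≠ ⊤ := measure_closedBall_lt_top.ne
  set D : ℝ := (volume (Metric.closedBall (0 : ℂ) (R + k))).toReal with hD
  have hA0 : 0 ≤ A := ENNReal.toReal_nonneg
  have hD0 : 0 ≤ D := ENNReal.toReal_nonneg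
  refine ⟨2 ^ k * A + M * D, by positivity, fun h => ?_⟩
  rcases le_or_gt ‖h‖ 1 with hh | hh
  · have hmin : min 1 (‖h‖ ^ k) = ‖h‖ ^ k := min_eq_right (pow_le_one₀ (norm_nonneg _) hh)
    rw [hmin]
    calc ∫⁻ z, ‖((fwdDiff h)^[k] ψ) z‖ₑ
        ≤ ∫⁻ z, (Metric.closedBall (0 : ℂ) (R + k)).indicator
            (fun _ => ENNReal.ofReal (‖h‖ ^ k * M)) z := by
          refine lintegral_mono fun z => ?_
          by_cases hz : z ∈ Metric.closedBall (0 : ℂ) (R + k)
          · rw [indicator_of_mem hz, ← ofReal_norm]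
            exact ENNReal.ofReal_le_ofReal (diff_deriv h k ℂ ψ M hs hM z)
          · rw [indicator_of_notMem hz]
            simp only [Metric.mem_closedBall, dist_zero_right, not_le] at hz
            rw [diff_supp h hh k ψ R hR' z hz]
            simp
      _ = ENNReal.ofReal (‖h‖ ^ k * M) * volume (Metric.closedBall (0 : ℂ) (R + k)) := by
          rw [lintegral_indicator Metric.isClosed_closedBall.measurableSet, setLIntegral_const]
      _ = ENNReal.ofReal (‖h‖ ^ k * M * D) := by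
          rw [ENNReal.ofReal_mul (p := ‖h‖ ^ k * M) (by positivity), hD, ENNReal.ofReal_toReal hV]
      _ ≤ ENNReal.ofReal ((2 ^ k * A + M * D) * ‖h‖ ^ k) := by
          refine ENNReal.ofReal_le_ofReal ?_
          have : 0 ≤ 2 ^ k * A * ‖h‖ ^ k := by positivity
          nlinarith
  · have hmin : min 1 (‖h‖ ^ k) = 1 := min_eq_left (one_le_pow₀ hh.le)
    rw [hmin, mul_one]
    calc ∫⁻ z, ‖((fwdDiff h)^[k] ψ) z‖ₑ ≤ 2 ^ k * ∫⁻ z, ‖ψ z‖ₑ := diff_triv h k ψ hs.continuous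
      _ = ENNReal.ofReal (2 ^ k * A) := by
          rw [ENNReal.ofReal_mul (by positivity), hA, ENNReal.ofReal_toReal hI',
            ENNReal.ofReal_pow (by norm_num)]
          simp
      _ ≤ ENNReal.ofReal (2 ^ k * A + M * D) := by
          refine ENNReal.ofReal_le_ofReal ?_
          have : 0 ≤ M * D := by positivity
          linarith

/-- change of scale in the integral over the plane -/
theorem lint_scale (g : ℂ → ℝ≥0∞) (hg : Measurable g) (s : ℝ) (hs : 0 < s) :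
    ∫⁻ z, g (s⁻¹ • z) = ENNReal.ofReal (s ^ 2) * ∫⁻ z, g z := by
  have h0 : s⁻¹ ≠ 0 := inv_ne_zero hs.ne'
  have h1 := Measure.map_addHaar_smul (volume : Measure ℂ) h0
  have h2 : ∫⁻ z, g (s⁻¹ • z) = ∫⁻ z, g z ∂(Measure.map (fun z : ℂ => s⁻¹ • z) volume) := by
    rw [lintegral_map hg (measurable_const_smul _)]
  rw [h2, h1, lintegral_smul_measure, Complex.finrank_real_complex]
  congr 2
  rw [inv_pow, inv_inv, abs_of_pos (by positivity)]

theorem t_DIFF : S_DIFF := by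
  intro ψ k hψ
  obtain ⟨B, hB0, hB⟩ := diff_one ψ k hψ
  refine ⟨B, hB0, fun h s hs => ?_⟩
  have h1 : sc ψ s = fun z => ((s⁻¹ ^ 2 : ℝ) : ℂ) * ψ (s⁻¹ • z) := rfl
  have h2 : (fwdDiff h)^[k] (sc ψ s) =
      fun z => ((s⁻¹ ^ 2 : ℝ) : ℂ) * ((fwdDiff (s⁻¹ • h))^[k] ψ) (s⁻¹ • z) := by
    rw [h1]; exact diff_scale _ _ _ _ _
  have hcont : Continuous ((fwdDiff (s⁻¹ • h))^[k] ψ) := diff_cont _ _ _ hψ.1.continuous
  calc ∫⁻ z, ‖((fwdDiff h)^[k] (sc ψ s)) z‖ₑ
      = ∫⁻ z, ENNReal.ofReal (s⁻¹ ^ 2) * ‖((fwdDiff (s⁻¹ • h))^[k] ψ) (s⁻¹ • z)‖ₑ := by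
        refine lintegral_congr fun z => ?_
        rw [h2]
        simp only [enorm_mul]
        congr 1
        rw [← ofReal_norm, Complex.norm_real, Real.norm_of_nonneg (by positivity)]
    _ = ENNReal.ofReal (s⁻¹ ^ 2) * ∫⁻ z, ‖((fwdDiff (s⁻¹ • h))^[k] ψ) (s⁻¹ • z)‖ₑ := by
        rw [lintegral_const_mul]
        exact (hcont.comp (continuous_const_smul s⁻¹)).enorm.measurable
    _ = ENNReal.ofReal (s⁻¹ ^ 2) * (ENNReal.ofReal (s ^ 2) *
          ∫⁻ z, ‖((fwdDiff (s⁻¹ • h))^[k] ψ) z‖ₑ) := by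
        rw [lint_scale (fun z => ‖((fwdDiff (s⁻¹ • h))^[k] ψ) z‖ₑ) hcont.enorm.measurable s hs]
    _ = ∫⁻ z, ‖((fwdDiff (s⁻¹ • h))^[k] ψ) z‖ₑ := by
        rw [← mul_assoc, ← ENNReal.ofReal_mul (by positivity)]
        have : s⁻¹ ^ 2 * s ^ 2 = 1 := by
          rw [← mul_pow, inv_mul_cancel₀ hs.ne', one_pow]
        rw [this, ENNReal.ofReal_one, one_mul]
    _ ≤ ENNReal.ofReal (B * min 1 (‖s⁻¹ • h‖ ^ k)) := hB _
    _ = ENNReal.ofReal (B * min 1 ((‖h‖ / s) ^ k)) := by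
        rw [norm_smul, Real.norm_of_nonneg (by positivity), inv_mul_eq_div]

end Pool.Agent.U261.DB
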