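import Pool.Agent.U243.DB.Stm

/-!
# Package FRAC1: a finite local fractional perimeter bounds the weighted integral of `V`
-/

set_option autoImplicit false

open MeasureTheory Set Function
open scoped ENNReal NNReal ContDiff

namespace Pool.Agent.U261.DB

open Pool.Agent.U243.DB

theorem fr_vanish (ψ : ℂ → ℂ) (hψ : ∀ z, 1 ≤ ‖z‖ → ψ z = 0) (z : ℂ) (hz : 1 < ‖z‖) :
    dbar ψ z = 0 := by
  have h1 : ψ =ᶠ[nhds z] fun _ => 0 := by
    have : ∀ᶠ w : ℂ in nhds z, 1 < ‖w‖ := (continuous_norm.tendsto z).eventually_const_lt hz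
    filter_upwards [this] with w hw using hψ w hw.le
  have h2 : fderiv ℝ ψ z = 0 := by
    rw [h1.fderiv_eq]
    simp
  simp [dbar, h2]

/-- the integral of the inner variable -/
theorem fr_inner (α B r : ℝ) (hα : α < 1) (hB : 0 ≤ B) (hr : 0 < r) :
    ∫⁻ s in Ioo (0 : ℝ) 1, (if r ≤ s then ENNReal.ofReal (s ^ (α - 1)) * ENNReal.ofReal (B * s⁻¹ ^ 3)
      else 0) ≤ ENNReal.ofReal (B / (3 - α)) * (if r < 1 then ENNReal.ofReal (r ^ (α - 3)) else 0) := by
  by_cases h1 : r < 1
  · rw [if_pos h1]
    have h2 : ∀ s ∈ Ioo (0 : ℝ) 1, (if r ≤ s then ENNReal.ofReal (s ^ (α - 1)) *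
        ENNReal.ofReal (B * s⁻¹ ^ 3) else 0) ≤
        (Ici r).indicator (fun s => ENNReal.ofReal (B * s ^ (α - 4))) s := by
      intro s hs
      by_cases h3 : r ≤ s
      · rw [if_pos h3, indicator_of_mem (by exact h3), ← ENNReal.ofReal_mul (Real.rpow_nonneg hs.1.le _)]
        refine ENNReal.ofReal_le_ofReal (le_of_eq ?_)
        have : s ^ (α - 4) = s ^ (α - 1) * s⁻¹ ^ 3 := by
          have e : (α - 4) = (α - 1) + (-(3 : ℝ)) := by ring
          rw [e, Real.rpow_add hs.1, Real.rpow_neg hs.1.le]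
          congr 1
          rw [inv_pow]
          norm_cast
        rw [this]
        ring
      · rw [if_neg h3]
        exact zero_le
    refine (setLIntegral_mono' measurableSet_Ioo h2).trans ?_
    refine (setLIntegral_le_lintegral _ _).trans ?_
    rw [lintegral_indicator measurableSet_Ici, setLIntegral_congr Ioi_ae_eq_Ici.symm]
    have hint : IntegrableOn (fun s : ℝ => s ^ (α - 4)) (Ioi r) :=
      integrableOn_Ioi_rpow_of_lt (by linarith) hr
    rw [← ofReal_integral_eq_lintegral_ofReal (hint.const_mul B)]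
    · rw [integral_const_mul, integral_Ioi_rpow_of_lt (by linarith) hr,
        ← ENNReal.ofReal_mul (by apply div_nonneg hB; linarith)]
      refine ENNReal.ofReal_le_ofReal (le_of_eq ?_)
      have e : α - 4 + 1 = -(3 - α) := by ring
      have e' : α - 3 = -(3 - α) := by ring
      rw [e, e', neg_div_neg_eq]
      ring
    · refine (ae_restrict_iff' measurableSet_Ioi).2 (Filter.Eventually.of_forall fun s hs => ?_)
      have : 0 < s := hr.trans hs
      positivity
  · rw [if_neg h1, mul_zero]
    refine le_of_eq ?_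
    rw [setLIntegral_congr_fun measurableSet_Ioo (g := fun _ => 0)]
    · simp
    · intro s hs
      have : ¬ r ≤ s := by
        have := hs.2
        push Not at h1 ⊢
        linarith
      simp only [this, if_false]

theorem t_FRAC1 : S_DBSC → S_FRAC1 := by
  intro hD ψ Ω α hψ hsup hΩ hα hP
  obtain ⟨hsc, hker, hint0, hmeas⟩ := hD ψ hψ
  obtain ⟨B, hB⟩ := hker.1.continuous.bounded_above_of_compact_support hker.2
  have hB0 : 0 ≤ B := (norm_nonneg _).trans (hB 0)
  -- the bound for the kernel
  set K : ℝ → ℂ → ℝ≥0∞ := fun s x => if ‖x‖ ≤ s then ENNReal.ofReal (B * s⁻¹ ^ 3) else 0 with hK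
  have hKb : ∀ s : ℝ, 0 < s → ∀ x : ℂ, ‖dbar (sc ψ s) x‖ₑ ≤ K s x := by
    intro s hs x
    rw [hsc]
    by_cases hx : ‖x‖ ≤ s
    · simp only [hK, if_pos hx]
      rw [← ofReal_norm]
      refine ENNReal.ofReal_le_ofReal ?_
      rw [norm_mul, Complex.norm_real, Real.norm_of_nonneg (by positivity), mul_comm]
      exact mul_le_mul_of_nonneg_right (hB _) (by positivity)
    · simp only [hK, if_neg hx]
      push Not at hx
      have : 1 < ‖s⁻¹ • x‖ := by
        rw [norm_smul, Real.norm_of_nonneg (by positivity), inv_mul_eq_div, one_lt_div hs]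
        exact hx
      rw [fr_vanish ψ hsup _ this]
      simp
  have hKsymm : ∀ (s : ℝ) (x : ℂ), K s (-x) = K s x := by
    intro s x; simp only [hK, norm_neg]
  have hKmeas : Measurable (fun p : ℝ × ℂ => K p.1 p.2) := by
    simp only [hK]
    refine Measurable.ite (measurableSet_le (by fun_prop) (by fun_prop)) ?_ measurable_const
    fun_prop
  -- the pointwise bound
  have hpt : ∀ s : ℝ, 0 < s → ∀ z : ℂ, ‖U ψ Ω s z‖ₑ ≤
      Ω.indicator (fun z => ∫⁻ w in Ωᶜ, K s (z - w)) z +
      Ωᶜ.indicator (fun z => ∫⁻ w in Ω, K s (z - w)) z := by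
    intro s hs z
    have hdc : Continuous (fun w => dbar (sc ψ s) (z - w)) := by
      have : (fun w => dbar (sc ψ s) (z - w)) =
          fun w => ((s⁻¹ ^ 3 : ℝ) : ℂ) * dbar ψ (s⁻¹ • (z - w)) := by
        funext w; exact hsc s _
      rw [this]
      have := hker.1.continuous
      fun_prop
    have hdI : Integrable (fun w => dbar (sc ψ s) (z - w)) := by
      refine hdc.integrable_of_hasCompactSupport ?_
      refine HasCompactSupport.intro (isCompact_closedBall z s) ?_
      intro w hw
      simp only [Metric.mem_closedBall, not_le, dist_comm w z, dist_eq_norm] at hw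
      have h1 := hKb s hs (z - w)
      simp only [hK, if_neg (not_le.2 hw)] at h1
      simpa using h1
    by_cases hz : z ∈ Ω
    · rw [indicator_of_mem hz, indicator_of_notMem (by simpa using hz), add_zero]
      have h0 : ∫ w, dbar (sc ψ s) (z - w) = 0 := by
        rw [integral_sub_left_eq_self (fun w => dbar (sc ψ s) w) volume z]
        simp only [hsc]
        rw [integral_const_mul, Measure.integral_comp_smul, hint0, smul_zero, mul_zero]
      have h1 : U ψ Ω s z = -∫ w in Ωᶜ, dbar (sc ψ s) (z - w) := by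
        have h2 := integral_add_compl hΩ hdI
        rw [h0] at h2
        exact eq_neg_of_add_eq_zero_left h2
      rw [h1, enorm_neg]
      refine (enorm_integral_le_lintegral_enorm _).trans ?_
      exact lintegral_mono fun w => hKb s hs _
    · rw [indicator_of_notMem hz, indicator_of_mem (by simpa using hz), zero_add]
      refine (enorm_integral_le_lintegral_enorm _).trans ?_
      exact lintegral_mono fun w => hKb s hs _
  -- the bound for `V`
  have hV : ∀ s : ℝ, 0 < s → V ψ Ω s ≤ 2 * ∫⁻ z in Ω, ∫⁻ w in Ωᶜ, K s (z - w) := by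
    intro s hs
    have hKs : Measurable (fun p : ℂ × ℂ => K s (p.1 - p.2)) :=
      hKmeas.comp (by fun_prop : Measurable fun p : ℂ × ℂ => (s, p.1 - p.2))
    have m1 : Measurable (fun z => ∫⁻ w in Ωᶜ, K s (z - w)) := hKs.lintegral_prod_right'
    have m2 : Measurable (fun z => ∫⁻ w in Ω, K s (z - w)) := hKs.lintegral_prod_right'
    calc V ψ Ω s ≤ ∫⁻ z, (Ω.indicator (fun z => ∫⁻ w in Ωᶜ, K s (z - w)) z +
          Ωᶜ.indicator (fun z => ∫⁻ w in Ω, K s (z - w)) z) := lintegral_mono fun z => hpt s hs z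
      _ = (∫⁻ z in Ω, ∫⁻ w in Ωᶜ, K s (z - w)) + ∫⁻ z in Ωᶜ, ∫⁻ w in Ω, K s (z - w) := by
          rw [lintegral_add_left (m1.indicator hΩ), lintegral_indicator hΩ,
            lintegral_indicator hΩ.compl]
      _ = (∫⁻ z in Ω, ∫⁻ w in Ωᶜ, K s (z - w)) + ∫⁻ w in Ω, ∫⁻ z in Ωᶜ, K s (z - w) := by
          congr 1
          exact lintegral_lintegral_swap (f := fun z w => K s (z - w)) hKs.aemeasurable
      _ = 2 * ∫⁻ z in Ω, ∫⁻ w in Ωᶜ, K s (z - w) := by
          rw [two_mul]
          congr 1
          refine lintegral_congr fun w => lintegral_congr fun z => ?_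
          rw [← hKsymm, neg_sub]
  -- integration over the scale
  have hF3 : Measurable (fun p : ℝ × (ℂ × ℂ) =>
      ENNReal.ofReal (p.1 ^ (α - 1)) * K p.1 (p.2.1 - p.2.2)) := by
    refine Measurable.mul ?_ ?_
    · exact ((measurable_fst.pow_const _)).ennreal_ofReal
    · exact hKmeas.comp (by fun_prop : Measurable fun p : ℝ × (ℂ × ℂ) => (p.1, p.2.1 - p.2.2))
  calc ∫⁻ s in Ioo (0 : ℝ) 1, ENNReal.ofReal (s ^ (α - 1)) * V ψ Ω s
      ≤ ∫⁻ s in Ioo (0 : ℝ) 1, 2 * ∫⁻ z in Ω, ∫⁻ w in Ωᶜ,
          ENNReal.ofReal (s ^ (α - 1)) * K s (z - w) := by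
        refine setLIntegral_mono' measurableSet_Ioo fun s hs => ?_
        have hKs : Measurable (fun p : ℂ × ℂ => K s (p.1 - p.2)) :=
          hKmeas.comp (by fun_prop : Measurable fun p : ℂ × ℂ => (s, p.1 - p.2))
        have e1 : ∫⁻ z in Ω, ∫⁻ w in Ωᶜ, ENNReal.ofReal (s ^ (α - 1)) * K s (z - w) =
            ENNReal.ofReal (s ^ (α - 1)) * ∫⁻ z in Ω, ∫⁻ w in Ωᶜ, K s (z - w) := by
          rw [← lintegral_const_mul]
          · refine lintegral_congr fun z => ?_
            rw [lintegral_const_mul]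
            exact hKs.comp (by fun_prop : Measurable fun w : ℂ => (z, w))
          · exact hKs.lintegral_prod_right'
        rw [e1]
        calc ENNReal.ofReal (s ^ (α - 1)) * V ψ Ω s
            ≤ ENNReal.ofReal (s ^ (α - 1)) * (2 * ∫⁻ z in Ω, ∫⁻ w in Ωᶜ, K s (z - w)) := by
              gcongr; exact hV s hs.1
          _ = _ := by ring
    _ = 2 * ∫⁻ s in Ioo (0 : ℝ) 1, ∫⁻ z in Ω, ∫⁻ w in Ωᶜ,
          ENNReal.ofReal (s ^ (α - 1)) * K s (z - w) := by
        rw [lintegral_const_mul']
        simp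
    _ = 2 * ∫⁻ z in Ω, ∫⁻ w in Ωᶜ, ∫⁻ s in Ioo (0 : ℝ) 1,
          ENNReal.ofReal (s ^ (α - 1)) * K s (z - w) := by
        congr 1
        rw [lintegral_lintegral_swap]
        · refine lintegral_congr fun z => ?_
          rw [lintegral_lintegral_swap]
          exact (hF3.comp (by fun_prop : Measurable fun p : ℝ × ℂ => (p.1, (z, p.2)))).aemeasurable
        · refine Measurable.aemeasurable ?_
          have h1 : Measurable (fun q : (ℝ × ℂ) × ℂ =>
              ENNReal.ofReal (q.1.1 ^ (α - 1)) * K q.1.1 (q.1.2 - q.2)) :=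
            hF3.comp (by fun_prop : Measurable fun q : (ℝ × ℂ) × ℂ => (q.1.1, (q.1.2, q.2)))
          exact h1.lintegral_prod_right'
    _ ≤ 2 * ∫⁻ z in Ω, ∫⁻ w in Ωᶜ, ENNReal.ofReal (B / (3 - α)) *
          (Metric.ball z 1).indicator (fun w => ENNReal.ofReal (‖z - w‖ ^ (α - 3))) w := by
        gcongr 2 * ?_
        refine setLIntegral_mono' hΩ fun z hz => ?_
        refine setLIntegral_mono' hΩ.compl fun w hw => ?_
        have hr : 0 < ‖z - w‖ := by
          rw [norm_pos_iff, sub_ne_zero]
          rintro rfl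
          exact hw hz
        have h1 := fr_inner α B ‖z - w‖ hα hB0 hr
        refine le_trans (le_of_eq ?_) (h1.trans (le_of_eq ?_))
        · refine lintegral_congr fun s => ?_
          simp only [hK]
          split_ifs <;> simp
        · congr 1
          by_cases h2 : ‖z - w‖ < 1
          · rw [if_pos h2, indicator_of_mem]
            rw [Metric.mem_ball, dist_comm, dist_eq_norm]
            exact h2
          · rw [if_neg h2, indicator_of_notMem]
            rw [Metric.mem_ball, dist_comm, dist_eq_norm]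
            exact h2
    _ = 2 * (ENNReal.ofReal (B / (3 - α)) * fractionalPerimeter α Ω) := by
        congr 1
        have h1 : ∀ z : ℂ, ∫⁻ w in Ωᶜ, ENNReal.ofReal (B / (3 - α)) *
            (Metric.ball z 1).indicator (fun w => ENNReal.ofReal (‖z - w‖ ^ (α - 3))) w =
            ENNReal.ofReal (B / (3 - α)) *
              ∫⁻ w in Ωᶜ ∩ Metric.ball z 1, ENNReal.ofReal (‖z - w‖ ^ (α - 3)) := by
          intro z
          rw [lintegral_const_mul' _ _ ENNReal.ofReal_ne_top, lintegral_indicator Metric.isOpen_ball.measurableSet,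
            Measure.restrict_restrict Metric.isOpen_ball.measurableSet, inter_comm]
        simp only [h1]
        rw [lintegral_const_mul' _ _ ENNReal.ofReal_ne_top]
        rfl
    _ < ⊤ := by
        refine ENNReal.mul_lt_top (by simp) (ENNReal.mul_lt_top ENNReal.ofReal_lt_top hP)

end Pool.Agent.U261.DB
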