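import Pool.Agent.U243.DB.Stm

/-!
# Package PAIR: the duality
-/

set_option autoImplicit false

open MeasureTheory Set Function
open scoped ENNReal NNReal ContDiff Convolution

namespace Pool.Agent.U261.DB

open Pool.Agent.U243.DB

/-- the scaled kernel is smooth with compact support -/
theorem pair_ker (ψ : ℂ → ℂ) (s : ℝ) (hs : 0 < s) (hψ : IsKer ψ) : IsKer (sc ψ s) := by
  obtain ⟨h1, h2⟩ := hψ
  have e : sc ψ s = fun z => ((s⁻¹ ^ 2 : ℝ) : ℂ) * ψ (s⁻¹ • z) := rfl
  refine ⟨?_, ?_⟩
  · rw [e]
    exact contDiff_const.mul (h1.comp (contDiff_const_smul _))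
  · rw [e]
    have h3 : HasCompactSupport (fun z : ℂ => ψ (s⁻¹ • z)) :=
      h2.comp_homeomorph (Homeomorph.smulOfNeZero s⁻¹ (inv_ne_zero hs.ne'))
    exact h3.mul_left (f := fun _ => ((s⁻¹ ^ 2 : ℝ) : ℂ))

theorem t_PAIR : S_PAIR := by
  intro ψ Ω s R M g hψ hΩ hs hg hM hR
  obtain ⟨hK1, hK2⟩ := pair_ker ψ s hs hψ
  set K : ℂ → ℂ := sc ψ s with hK
  -- the reflected kernel
  set Kr : ℂ → ℂ := fun z => K (-z) with hKr
  have hr1 : ContDiff ℝ ∞ Kr := hK1.comp contDiff_neg
  have hr2 : HasCompactSupport Kr := hK2.comp_homeomorph (Homeomorph.neg ℂ)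
  -- `g` is integrable with compact support
  have hgc : HasCompactSupport g := by
    refine HasCompactSupport.intro (isCompact_closedBall (0 : ℂ) R) ?_
    intro z hz
    simp only [Metric.mem_closedBall, dist_zero_right, not_le] at hz
    exact hR z hz
  have hgI : Integrable g := by
    have h1 : IntegrableOn g (Metric.closedBall (0 : ℂ) R) := by
      refine Measure.integrableOn_of_bounded measure_closedBall_lt_top.ne
        hg.aestronglyMeasurable (M := M) ?_
      exact Filter.Eventually.of_forall fun z => hM z
    refine (integrableOn_iff_integrable_of_support_subset ?_).1 h1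
    intro z hz
    by_contra hne
    simp only [Metric.mem_closedBall, dist_zero_right, not_le] at hne
    exact hz (hR z hne)
  have hgL : LocallyIntegrable g := hgI.locallyIntegrable
  -- convolution
  set L : ℂ →L[ℝ] ℂ →L[ℝ] ℂ := ContinuousLinearMap.mul ℝ ℂ with hL
  have hf : (fun w => ∫ z, g z * K (z - w)) = g ⋆[L, volume] Kr := by
    funext w
    simp only [convolution, hL, hKr, ContinuousLinearMap.mul_apply', neg_sub]
  have hr1' : ContDiff ℝ 1 Kr := hr1.of_le (by simp)
  refine ⟨?_, ?_, ?_⟩
  · rw [hf]
    exact hr2.contDiff_convolution_right L hgL hr1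
  · rw [hf]
    exact HasCompactSupport.convolution L hgc hr2
  · rw [hf]
    -- the derivative
    have hd : ∀ w v : ℂ, fderiv ℝ (g ⋆[L, volume] Kr) w v = -∫ z, g z * fderiv ℝ K (z - w) v := by
      intro w v
      rw [(hr2.hasFDerivAt_convolution_right L hgL hr1' w).fderiv,
        convolution_precompR_apply L hgL (hr2.fderiv ℝ) (hr1'.continuous_fderiv one_ne_zero)]
      simp only [convolution, hL, ContinuousLinearMap.mul_apply']
      rw [← integral_neg]
      refine integral_congr_ae (Filter.Eventually.of_forall fun t => ?_)
      have e1 : fderiv ℝ Kr (w - t) v = - fderiv ℝ K (t - w) v := by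
        have h1 : HasFDerivAt K (fderiv ℝ K (-(w - t))) (-(w - t)) :=
          (hK1.differentiable (by simp)).differentiableAt.hasFDerivAt
        have h2 : HasFDerivAt (fun z : ℂ => -z) (-(ContinuousLinearMap.id ℝ ℂ)) (w - t) :=
          (hasFDerivAt_id (w - t)).neg
        have h3 := h1.comp (w - t) h2
        have h4 : fderiv ℝ Kr (w - t) =
            (fderiv ℝ K (-(w - t))).comp (-(ContinuousLinearMap.id ℝ ℂ)) := h3.fderiv
        rw [h4]
        simp only [ContinuousLinearMap.comp_apply, ContinuousLinearMap.neg_apply,
          ContinuousLinearMap.id_apply, map_neg, neg_sub]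
      simp only [e1]
      ring
    have hcf : Continuous (fderiv ℝ K) := hK1.continuous_fderiv (by simp)
    have hcs : HasCompactSupport (fderiv ℝ K) := hK2.fderiv ℝ
    have hDc : Continuous (dbar K) := by
      unfold dbar
      fun_prop
    have hDs : HasCompactSupport (dbar K) := by
      refine hcs.mono ?_
      intro z hz h0
      apply hz
      simp only [dbar, h0, ContinuousLinearMap.zero_apply, mul_zero, add_zero]
    have hint : ∀ (w v : ℂ), Integrable (fun z => g z * fderiv ℝ K (z - w) v) := by
      intro w v
      have h1 : Continuous (fun z => fderiv ℝ K (z - w) v) := by fun_prop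
      obtain ⟨C, hC⟩ := (hcf.clm_apply (continuous_const (y := v))).bounded_above_of_compact_support
        (hcs.mono (fun z hz h0 => hz (by simp only [h0, ContinuousLinearMap.zero_apply])))
      have h2 := hgI.bdd_mul (c := C) h1.aestronglyMeasurable
        (Filter.Eventually.of_forall fun z => hC (z - w))
      refine h2.congr (Filter.Eventually.of_forall fun z => ?_)
      simp only [mul_comm]
    have hdb : ∀ w, dbar (g ⋆[L, volume] Kr) w = -∫ z, g z * dbar K (z - w) := by
      intro w
      have e1 : dbar (g ⋆[L, volume] Kr) w =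
          (1 / 2) * (fderiv ℝ (g ⋆[L, volume] Kr) w 1 +
            Complex.I * fderiv ℝ (g ⋆[L, volume] Kr) w Complex.I) := rfl
      rw [e1, hd, hd]
      have e2 : (fun z => g z * dbar K (z - w)) = fun z =>
          (1 / 2) * (g z * fderiv ℝ K (z - w) 1 + Complex.I * (g z * fderiv ℝ K (z - w) Complex.I)) := by
        funext z
        simp only [dbar]
        ring
      rw [e2, integral_const_mul, integral_add (hint w 1) ((hint w Complex.I).const_mul _),
        integral_const_mul]
      ring
    have hpair : pairing Ω (g ⋆[L, volume] Kr) = ∫ w in Ω, ∫ z, g z * dbar K (z - w) := by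
      simp only [pairing, hdb, integral_neg, neg_neg]
    rw [hpair]
    -- Fubini
    have hDr : Integrable (fun z => dbar K (-z)) :=
      (hDc.comp continuous_neg).integrable_of_hasCompactSupport
        (hDs.comp_homeomorph (Homeomorph.neg ℂ))
    have hprod : Integrable (fun p : ℂ × ℂ => g p.2 * dbar K (p.2 - p.1))
        ((volume : Measure ℂ).prod volume) := by
      have h1 := hgI.convolution_integrand L hDr (μ := (volume : Measure ℂ)) (ν := volume)
      refine h1.congr (Filter.Eventually.of_forall fun p => ?_)
      simp only [hL, ContinuousLinearMap.mul_apply', neg_sub]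
    have hprod' : Integrable (Function.uncurry fun w z : ℂ => g z * dbar K (z - w))
        ((volume.restrict Ω).prod volume) := by
      have h1 : ((volume.restrict Ω).prod (volume : Measure ℂ)) =
          ((volume : Measure ℂ).prod volume).restrict (Ω ×ˢ univ) := by
        rw [← Measure.prod_restrict, Measure.restrict_univ]
      rw [h1]
      exact hprod.restrict
    rw [integral_integral_swap hprod']
    refine integral_congr_ae (Filter.Eventually.of_forall fun z => ?_)
    simp only [U]
    rw [integral_const_mul]

end Pool.Agent.U261.DB
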